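import Pool.Agent.helper67.GV.Spec

set_option autoImplicit false

open Finset Filter Topology

namespace Pool.Agent.helper67.GV

open Pool.Agent.helper21.GR

theorem AVG_mono {T : ℕ} (n : Fin T → ℕ) (f g : (Fin T → ℕ) → ℝ) (h : ∀ x, f x ≤ g x) :
    mean n f ≤ mean n g := by
  unfold mean
  exact div_le_div_of_nonneg_right (Finset.sum_le_sum (fun x _ => h x)) (Nat.cast_nonneg _)

theorem AVG_const {T : ℕ} (n : Fin T → ℕ) (hn : 0 < (box n).card) (c : ℝ) :
    mean n (fun _ => c) = c := by
  unfold mean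
  have h : ((box n).card : ℝ) ≠ 0 := by
    have : (0 : ℝ) < (box n).card := by exact_mod_cast hn
    exact this.ne'
  rw [Finset.sum_const, nsmul_eq_mul, mul_div_cancel_left₀ _ h]

theorem AVG_add {T : ℕ} (n : Fin T → ℕ) (f g : (Fin T → ℕ) → ℝ) :
    mean n (fun x => f x + g x) = mean n f + mean n g := by
  unfold mean
  rw [Finset.sum_add_distrib, add_div]

theorem AVG_mul {T : ℕ} (n : Fin T → ℕ) (c : ℝ) (f : (Fin T → ℕ) → ℝ) :
    mean n (fun x => c * f x) = c * mean n f := by
  unfold mean
  rw [← Finset.mul_sum, mul_div_assoc]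

theorem AVG_sum {T N : ℕ} (n : Fin T → ℕ) (f : Fin N → (Fin T → ℕ) → ℝ) :
    mean n (fun x => ∑ v, f v x) = ∑ v, mean n (f v) := by
  unfold mean
  rw [Finset.sum_comm, Finset.sum_div]

theorem AVG_sqrt : Tendsto Nat.sqrt atTop atTop := by
  rw [tendsto_atTop]
  intro b
  exact (eventually_ge_atTop (b * b)).mono (fun n hn => Nat.le_sqrt.2 hn)

theorem AVG (hBXC : BXC_stmt) (hMLT : MLT_stmt) (hTWO : TWO_stmt) (hJEN : JEN_stmt) :
    AVG_stmt := by
  classical
  intro T H C u₀ lam H0 HΔ Hz hu₀ hlam₀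
  -- pass to a tail
  obtain ⟨N0, hN0⟩ := Filter.eventually_atTop.1 (hu₀.eventually_ge_atTop 1)
  set u : ℕ → ℕ := fun i => u₀ (i + N0) with hu_def
  have hu : Tendsto u atTop atTop := hu₀.comp (tendsto_add_atTop_nat N0)
  have hlam : Tendsto (fun i => H (Pi.single (Fin.last T) (u i)) / (u i : ℝ)) atTop (𝓝 lam) :=
    hlam₀.comp (tendsto_add_atTop_nat N0)
  have hu1 : ∀ i, 1 ≤ u i := fun i => hN0 _ (Nat.le_add_left _ _)
  have hC : 0 ≤ C := (HΔ 0 0).1.trans (HΔ 0 0).2
  set s : ℕ → ℕ := fun i => Nat.sqrt (u i) with hs_def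
  have hs : Tendsto s atTop atTop := AVG_sqrt.comp hu
  have hs1 : ∀ i, 1 ≤ s i := fun i => Nat.sqrt_pos.2 (hu1 i)
  have hsu : ∀ i, s i * s i ≤ u i := fun i => Nat.sqrt_le (u i)
  have hsu' : ∀ i, s i ≤ u i := fun i => Nat.sqrt_le_self (u i)
  have hsR : Tendsto (fun i => (s i : ℝ)) atTop atTop := tendsto_natCast_atTop_atTop.comp hs
  set nn : ℕ → Fin (T + 1) → ℕ := fun i j => if j = Fin.last T then u i else s i with hnn
  have nn_last : ∀ i, nn i (Fin.last T) = u i := fun i => by simp [hnn]
  have nn_other : ∀ i j, j ≠ Fin.last T → nn i j = s i := fun i j hj => by simp [hnn, hj]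
  have nn_ge : ∀ i j, s i ≤ nn i j := by
    intro i j
    by_cases hj : j = Fin.last T
    · rw [hj, nn_last]; exact hsu' i
    · rw [nn_other i j hj]
  have nn_pos : ∀ i j, 0 < nn i j := fun i j => lt_of_lt_of_le (hs1 i) (nn_ge i j)
  have bpos : ∀ i, 0 < (box (nn i)).card := fun i => ((hBXC (T + 1) (nn i) 0).2 (nn_pos i)).1
  set m : ℕ → Fin (T + 1) → ℝ := fun i a => mean (nn i) (fun x => H (x + Pi.single a 1) - H x)
    with hm
  have m_mem : ∀ i, m i ∈ Set.pi Set.univ (fun _ : Fin (T + 1) => Set.Icc (0 : ℝ) C) := by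
    intro i a _
    constructor
    · have := AVG_mono (nn i) (fun _ => 0) (fun x => H (x + Pi.single a 1) - H x)
        (fun x => (HΔ x a).1)
      rwa [AVG_const _ (bpos i)] at this
    · have := AVG_mono (nn i) (fun x => H (x + Pi.single a 1) - H x) (fun _ => C)
        (fun x => (HΔ x a).2)
      rwa [AVG_const _ (bpos i)] at this
  obtain ⟨ℓ, -, φ, hφ, hlim⟩ :=
    (isCompact_univ_pi (fun _ : Fin (T + 1) => (isCompact_Icc : IsCompact (Set.Icc (0 : ℝ) C)))).tendsto_subseq m_mem
  have hlim' : ∀ a, Tendsto (fun i => m (φ i) a) atTop (𝓝 (ℓ a)) := fun a =>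
    (tendsto_pi_nhds.1 hlim) a
  have hφt := hφ.tendsto_atTop
  -- `C / nn → 0`
  have hsm : Tendsto (fun i => 2 * C / (s (φ i) : ℝ)) atTop (𝓝 0) :=
    (hsR.comp hφt).const_div_atTop _
  have hT2 : ∀ a b, Tendsto (fun i => mean (nn (φ i))
      (fun x => H (x + Pi.single a 1 + Pi.single b 1) - H x)) atTop (𝓝 (ℓ a + ℓ b)) := by
    intro a b
    have h1 : Tendsto (fun i => mean (nn (φ i))
        (fun x => H (x + Pi.single a 1 + Pi.single b 1) - H x) - (m (φ i) a + m (φ i) b))
        atTop (𝓝 0) := by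
      rw [tendsto_zero_iff_abs_tendsto_zero]
      refine squeeze_zero (fun i => abs_nonneg _) (fun i => ?_) hsm
      have h2 := hTWO (T + 1) (nn (φ i)) H C a b (nn_pos _) (fun x a => HΔ x a)
      refine h2.trans ?_
      have h3 : (0 : ℝ) < s (φ i) := by exact_mod_cast hs1 (φ i)
      have h4 : (s (φ i) : ℝ) ≤ nn (φ i) a := by exact_mod_cast nn_ge (φ i) a
      exact div_le_div_of_nonneg_left (by positivity) h3 h4
    have h2 := h1.add ((hlim' a).add (hlim' b))
    rw [zero_add] at h2
    refine h2.congr (fun i => ?_)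
    ring
  refine ⟨ℓ, ?_, ?_, ?_⟩
  · -- `ℓ 0 = 0`
    have h1 : ∀ i, m i 0 = 0 := by
      intro i
      show mean (nn i) (fun x => H (x + Pi.single 0 1) - H x) = 0
      have : (fun x : Fin (T + 1) → ℕ => H (x + Pi.single 0 1) - H x) = fun _ => (0 : ℝ) := by
        funext x
        rw [Hz x, sub_self]
      rw [this, AVG_const _ (bpos i)]
    have h2 := hlim' 0
    simp only [h1] at h2
    exact tendsto_nhds_unique h2 tendsto_const_nhds
  · -- `ℓ last ≤ lam`
    have Hnn : ∀ x : Fin (T + 1) → ℕ, 0 ≤ H x := by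
      have key : ∀ k : ℕ, ∀ x : Fin (T + 1) → ℕ, ∑ j, x j = k → 0 ≤ H x := by
        intro k
        induction k with
        | zero =>
          intro x hx
          have : x = 0 := by
            funext j
            exact (Finset.sum_eq_zero_iff.1 hx) j (Finset.mem_univ j)
          rw [this, H0]
        | succ k ih =>
          intro x hx
          obtain ⟨j, hj⟩ : ∃ j, 0 < x j := by
            by_contra hcon
            push Not at hcon
            have : ∑ j, x j = 0 := Finset.sum_eq_zero (fun j _ => by have := hcon j; omega)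
            omega
          set y : Fin (T + 1) → ℕ := Function.update x j (x j - 1) with hy
          have hxy : x = y + Pi.single j 1 := by
            funext l
            by_cases hl : l = j
            · subst hl
              simp [hy]
              omega
            · simp [hy, hl]
          have hsum : ∑ l, y l = k := by
            have h1 : ∑ l, x l = ∑ l, y l + ∑ l, (Pi.single j 1 : Fin (T + 1) → ℕ) l := by
              rw [← Finset.sum_add_distrib]
              exact Finset.sum_congr rfl (fun l _ => congrFun hxy l)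
            rw [Finset.sum_pi_single'] at h1
            simp only [Finset.mem_univ, if_true] at h1
            omega
          rw [hxy]
          have := (HΔ y j).1
          have := ih y hsum
          linarith
      exact fun x => key _ x rfl
    have h1 : ∀ i, m i (Fin.last T) ≤ H (Pi.single (Fin.last T) (u i)) / (u i : ℝ) +
        (C * ((T + 1 : ℕ) : ℝ)) / (s i : ℝ) := by
      intro i
      have h2 := hMLT (T + 1) (nn i) H C (Fin.last T) (s i) (nn_pos i)
        (fun j hj => (nn_other i j hj).le) hC Hnn (fun x a => by have := (HΔ x a).2; linarith)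
      refine h2.trans ?_
      rw [nn_last, add_div]
      have hup : (0 : ℝ) < u i := by exact_mod_cast hu1 i
      have hsp : (0 : ℝ) < s i := by exact_mod_cast hs1 i
      have hle : (s i : ℝ) * s i ≤ u i := by exact_mod_cast hsu i
      have h3 : C * ((T + 1 : ℕ) : ℝ) * (s i : ℝ) / (u i : ℝ) ≤ C * ((T + 1 : ℕ) : ℝ) / (s i : ℝ) := by
        rw [div_le_div_iff₀ hup hsp]
        have hcc : 0 ≤ C * ((T + 1 : ℕ) : ℝ) := by positivity
        calc C * ((T + 1 : ℕ) : ℝ) * (s i : ℝ) * (s i : ℝ)
            = C * ((T + 1 : ℕ) : ℝ) * ((s i : ℝ) * s i) := by ring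
          _ ≤ C * ((T + 1 : ℕ) : ℝ) * (u i : ℝ) := mul_le_mul_of_nonneg_left hle hcc
      linarith
    have h2 : Tendsto (fun i => H (Pi.single (Fin.last T) (u (φ i))) / (u (φ i) : ℝ) +
        (C * ((T + 1 : ℕ) : ℝ)) / (s (φ i) : ℝ)) atTop (𝓝 (lam + 0)) :=
      (hlam.comp hφt).add ((hsR.comp hφt).const_div_atTop _)
    rw [add_zero] at h2
    exact le_of_tendsto_of_tendsto' (hlim' _) h2 (fun i => h1 (φ i))
  · intro n a b A B hn hexp
    set l : Fin n → ℝ := fun v => ℓ (a v) + ℓ (b v) with hl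
    set Z : ℝ := ∑ v, Real.exp (l v) with hZ
    have hne : (Finset.univ : Finset (Fin n)).Nonempty := ⟨⟨0, hn⟩, Finset.mem_univ _⟩
    have hZpos : 0 < Z := Finset.sum_pos (fun v _ => Real.exp_pos _) hne
    have h1 : ∀ x : Fin (T + 1) → ℕ,
        ∑ v, Real.exp (l v) * ((H (x + Pi.single (a v) 1 + Pi.single (b v) 1) - H x) - l v) +
          Z * Real.log Z ≤ Z * (H (x + Pi.single A 1 + Pi.single B 1) - H x) := by
      intro x
      refine hJEN n (fun v => H (x + Pi.single (a v) 1 + Pi.single (b v) 1) - H x) l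
        (H (x + Pi.single A 1 + Pi.single B 1) - H x) hn ?_
      simp only [Real.exp_sub]
      rw [← Finset.sum_div]
      exact div_le_div_of_nonneg_right (hexp x) (Real.exp_pos _).le
    have h2 : ∀ i, ∑ v, Real.exp (l v) *
        (mean (nn i) (fun x => H (x + Pi.single (a v) 1 + Pi.single (b v) 1) - H x) - l v) +
          Z * Real.log Z ≤ Z * mean (nn i) (fun x => H (x + Pi.single A 1 + Pi.single B 1) - H x) := by
      intro i
      have h3 := AVG_mono (nn i) _ _ h1
      rw [AVG_mul, AVG_add, AVG_const _ (bpos i), AVG_sum] at h3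
      refine le_trans (le_of_eq ?_) h3
      congr 1
      refine Finset.sum_congr rfl (fun v _ => ?_)
      rw [AVG_mul]
      congr 1
      have h4 : (fun x : Fin (T + 1) → ℕ =>
          H (x + Pi.single (a v) 1 + Pi.single (b v) 1) - H x - l v) =
          fun x => (H (x + Pi.single (a v) 1 + Pi.single (b v) 1) - H x) + (- l v) := by
        funext x
        ring
      rw [h4, AVG_add, AVG_const _ (bpos i)]
      ring
    have h3 : Tendsto (fun i => ∑ v, Real.exp (l v) *
        (mean (nn (φ i)) (fun x => H (x + Pi.single (a v) 1 + Pi.single (b v) 1) - H x) - l v) +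
          Z * Real.log Z) atTop (𝓝 (∑ v, Real.exp (l v) * ((ℓ (a v) + ℓ (b v)) - l v) +
          Z * Real.log Z)) := by
      refine Tendsto.add ?_ tendsto_const_nhds
      refine tendsto_finsetSum _ (fun v _ => ?_)
      exact ((hT2 (a v) (b v)).sub tendsto_const_nhds).const_mul _
    have h4 : Tendsto (fun i => Z * mean (nn (φ i))
        (fun x => H (x + Pi.single A 1 + Pi.single B 1) - H x)) atTop (𝓝 (Z * (ℓ A + ℓ B))) :=
      (hT2 A B).const_mul _
    have h5 := le_of_tendsto_of_tendsto' h3 h4 (fun i => h2 (φ i))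
    have h6 : ∑ v, Real.exp (l v) * ((ℓ (a v) + ℓ (b v)) - l v) = 0 :=
      Finset.sum_eq_zero (fun v _ => by simp [hl])
    rw [h6, zero_add] at h5
    have h7 : Real.log Z ≤ ℓ A + ℓ B := le_of_mul_le_mul_left h5 hZpos
    calc Z = Real.exp (Real.log Z) := (Real.exp_log hZpos).symm
      _ ≤ Real.exp (ℓ A + ℓ B) := Real.exp_le_exp.2 h7

end Pool.Agent.helper67.GV
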