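import Pool.Agent.helper67.GV.Spec

set_option autoImplicit false

open Finset Filter Topology

namespace Pool.Agent.helper67.GV

open Pool.Agent.helper21.GR

/-- pull back a realization along an injective map -/
theorem CRD_pull {K : Type} {V : Type} [DecidableEq V] (cap : K → ℕ) (c : V → V → K)
    (S : Finset V) (hG : Gal c) (hc : ∀ l, Bd (fun u v => c u v = l) S (fun _ => 1) (cap l))
    (n : ℕ) (E : Fin n ↪ V) (hE : ∀ a, E a ∈ S) : Rz cap n := by
  classical
  refine ⟨fun a b => c (E a) (E b), ⟨fun u v => hG.symm _ _, fun u v w h1 h2 h3 => ?_⟩, ?_⟩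
  · exact hG.gal _ _ _ (fun h => h1 (E.injective h)) (fun h => h2 (E.injective h))
      (fun h => h3 (E.injective h))
  · intro l Q _ hQ
    have h := hc l (Q.map E) (by
      intro x hx
      obtain ⟨a, -, rfl⟩ := Finset.mem_map.1 hx
      exact hE a) (by
      intro x hx y hy hxy
      obtain ⟨a, ha, rfl⟩ := Finset.mem_map.1 hx
      obtain ⟨b, hb, rfl⟩ := Finset.mem_map.1 hy
      exact hQ a ha b hb (fun h => hxy (by rw [h])))
    rw [Finset.sum_map] at h
    exact h

theorem CRD (hBDD : BDD_stmt) : CRD_stmt := by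
  classical
  intro K _ cap
  obtain ⟨N, hN⟩ := hBDD K cap
  have hbdd : BddAbove {n | Rz cap n} := ⟨N, fun n hn => hN n hn⟩
  have hzero : ∀ cap' : K → ℕ, Rz cap' 0 := by
    intro cap'
    refine ⟨fun a _ => a.elim0, ⟨fun a => a.elim0, fun a => a.elim0⟩, fun l Q _ _ => ?_⟩
    have : Q = ∅ := Finset.eq_empty_of_forall_notMem (fun a => a.elim0)
    rw [this, Finset.sum_empty]
    exact Nat.zero_le _
  have hmem : Rz cap (Fc cap) := Nat.sSup_mem (s := {n | Rz cap n}) ⟨0, hzero cap⟩ hbdd
  refine ⟨?_, hmem, ?_, ?_⟩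
  · intro V _ c S hG hc
    refine le_csSup hbdd ?_
    refine CRD_pull cap c S hG hc S.card
      ⟨fun a => ((S.equivFin.symm a : S) : V), fun a b hab =>
        S.equivFin.symm.injective (Subtype.ext hab)⟩ (fun a => (S.equivFin.symm a).2)
  · intro n
    constructor
    · intro h
      exact le_csSup hbdd h
    · intro h
      obtain ⟨c, hG, hc⟩ := hmem
      exact CRD_pull cap c Finset.univ hG hc n (Fin.castLEEmb h) (fun a => Finset.mem_univ _)
  · intro cap' hcc
    obtain ⟨N', hN'⟩ := hBDD K cap'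
    refine le_csSup (s := {n | Rz cap' n}) ⟨N', fun n hn => hN' n hn⟩ ?_
    obtain ⟨c, hG, hc⟩ := hmem
    exact ⟨c, hG, fun l => (hc l).le (hcc l)⟩

end Pool.Agent.helper67.GV
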