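import Pool.Agent.helper67.GV.Spec

set_option autoImplicit false

open Finset Filter Topology

namespace Pool.Agent.helper67.GV

open Pool.Agent.helper21.GR

theorem FM0 (hONE : ONE_stmt) (hFM2 : FM2_stmt) : FM0_stmt := by
  classical
  refine ⟨?_, fun s hs => ?_⟩
  · rw [← hFM2 Unit (fun _ => 1) 0 (by simp)]
    exact (hONE Unit).1
  · have hne : Nonempty (1 ::ₘ s).ToType := by
      refine ⟨⟨1, ⟨0, ?_⟩⟩⟩
      rw [Multiset.count_pos]
      exact Multiset.mem_cons_self 1 s
    unfold Fm
    apply (hONE (1 ::ₘ s).ToType).2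
    intro p
    have hp : (p : ℕ) ∈ 1 ::ₘ s := Multiset.coe_mem
    rcases Multiset.mem_cons.1 hp with h | h
    · rw [h]
    · exact hs _ h

end Pool.Agent.helper67.GV
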