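import Pool.Agent.helper67.GV.Spec

set_option autoImplicit false

open Finset Filter Topology

namespace Pool.Agent.helper67.GV

open Pool.Agent.helper21.GR

theorem FM2 (hTRN : TRN_stmt) : FM2_stmt := by
  intro K _ cap s hs
  unfold Fm
  apply hTRN
  rw [hs]
  exact (Multiset.map_univ_coe (1 ::ₘ s)).symm

end Pool.Agent.helper67.GV
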