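import Pool.Agent.helper67.GV.Spec

set_option autoImplicit false

open Finset Filter Topology

namespace Pool.Agent.helper67.GV

open Pool.Agent.helper21.GR

theorem H1B_upd {K : Type} [DecidableEq K] (w : Option K → ℕ) (j : K) (b : ℕ) :
    (fun i : K => Function.update w (some j) b (some i)) =
      Function.update (fun i => w (some i)) j b := by
  funext i
  by_cases h : i = j
  · subst h
    rw [Function.update_self, Function.update_self]
  · rw [Function.update_of_ne h, Function.update_of_ne (fun h' => h (Option.some.inj h'))]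

theorem H1B_upd' {K : Type} [DecidableEq K] (w : Option K → ℕ) (b : ℕ) :
    (fun i : K => Function.update w none b (some i)) = (fun i => w (some i)) := by
  funext i
  rw [Function.update_of_ne (Option.some_ne_none i)]

theorem H1B (hCRD : CRD_stmt) (hONE : ONE_stmt) (hSB2 : SB2_stmt) (hRAM : RAM_stmt)
    (hH1A : H1A_stmt) : H1B_stmt := by
  classical
  intro K _ _ _ T hT cap hcap
  obtain ⟨hR1, hR2, -⟩ := hRAM T hT
  have hK1 : (1 : ℝ) ≤ ((K0 T : ℕ) : ℝ) := by exact_mod_cast hR2
  set Φ : (Option K → ℕ) → ℝ := fun w =>
    ((K0 T : ℕ) : ℝ) ^ (w none - 1) * ((Fc (fun i : K => w (some i)) : ℕ) : ℝ) with hΦ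
  have hmono : ∀ A B : Option K → ℕ, (∀ l, A l ≤ B l) → Φ A ≤ Φ B := by
    intro A B hAB
    have h1 : ((K0 T : ℕ) : ℝ) ^ (A none - 1) ≤ ((K0 T : ℕ) : ℝ) ^ (B none - 1) :=
      pow_le_pow_right₀ hK1 (Nat.sub_le_sub_right (hAB none) 1)
    have h2 : ((Fc (fun i : K => A (some i)) : ℕ) : ℝ) ≤ ((Fc (fun i : K => B (some i)) : ℕ) : ℝ) := by
      exact_mod_cast (hCRD K (fun i : K => A (some i))).2.2.2 (fun i => B (some i))
        (fun l => hAB (some l))
    exact mul_le_mul h1 h2 (Nat.cast_nonneg _) (by positivity)
  have htwo : TwoIneq (Fin (Fc cap)) T Φ := by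
    intro i j hij A hA r hs S x y hx hy Hx Hy
    rcases i with _ | i
    · rcases j with _ | j
      · exact absurd rfl hij
      · -- none, some j
        have h1 := hH1A K T hT (fun l => A (some l)) j (A none) (Fin (Fc cap)) r hs (hA (some j))
          (hA none) S x y hx hy Hx Hy
        have h2 : ∀ v, Φ (Function.update (Function.update A none (x v)) (some j) (y v)) =
            ((K0 T : ℕ) : ℝ) ^ (x v - 1) *
              ((Fc (Function.update (fun l => A (some l)) j (y v)) : ℕ) : ℝ) := by
          intro v
          show ((K0 T : ℕ) : ℝ) ^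
            (Function.update (Function.update A none (x v)) (some j) (y v) none - 1) *
            ((Fc (fun i : K => Function.update (Function.update A none (x v)) (some j) (y v)
              (some i)) : ℕ) : ℝ) = _
          rw [H1B_upd, H1B_upd', Function.update_of_ne (Option.some_ne_none j).symm,
            Function.update_self]
        rw [Finset.sum_congr rfl (fun v _ => h2 v)]
        show _ ≤ ((K0 T : ℕ) : ℝ) ^ (A none - 1) * ((Fc (fun i : K => A (some i)) : ℕ) : ℝ)
        exact_mod_cast h1
    · rcases j with _ | j
      · -- some i, none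
        have hs' : ∀ u v, ¬ r u v → ¬ r v u := fun u v h h' => h (hs _ _ h')
        have h1 := hH1A K T hT (fun l => A (some l)) i (A none) (Fin (Fc cap))
          (fun u v => ¬ r u v) hs' (hA (some i)) (hA none) S y x hy hx Hy (by
            intro Q hQ hc
            exact Hx Q hQ (fun u hu v hv huv => not_not.1 (hc u hu v hv huv)))
        have h2 : ∀ v, Φ (Function.update (Function.update A (some i) (x v)) none (y v)) =
            ((K0 T : ℕ) : ℝ) ^ (y v - 1) *
              ((Fc (Function.update (fun l => A (some l)) i (x v)) : ℕ) : ℝ) := by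
          intro v
          show ((K0 T : ℕ) : ℝ) ^
            (Function.update (Function.update A (some i) (x v)) none (y v) none - 1) *
            ((Fc (fun l : K => Function.update (Function.update A (some i) (x v)) none (y v)
              (some l)) : ℕ) : ℝ) = _
          rw [H1B_upd', H1B_upd, Function.update_self]
        rw [Finset.sum_congr rfl (fun v _ => h2 v)]
        show _ ≤ ((K0 T : ℕ) : ℝ) ^ (A none - 1) * ((Fc (fun i : K => A (some i)) : ℕ) : ℝ)
        exact_mod_cast h1
      · -- some i, some j
        have hij' : i ≠ j := fun h => hij (by rw [h])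
        have h1 := hSB2 K (fun l => A (some l)) (Fin (Fc cap)) i j r hij' hs S x y Hx Hy
        have h2 : ∀ v, Φ (Function.update (Function.update A (some i) (x v)) (some j) (y v)) =
            ((K0 T : ℕ) : ℝ) ^ (A none - 1) *
              ((Fc (Function.update (Function.update (fun l => A (some l)) i (x v)) j (y v)) : ℕ) :
                ℝ) := by
          intro v
          show ((K0 T : ℕ) : ℝ) ^
            (Function.update (Function.update A (some i) (x v)) (some j) (y v) none - 1) *
            ((Fc (fun l : K => Function.update (Function.update A (some i) (x v)) (some j) (y v)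
              (some l)) : ℕ) : ℝ) = _
          rw [H1B_upd, H1B_upd, Function.update_of_ne (Option.some_ne_none j).symm,
            Function.update_of_ne (Option.some_ne_none i).symm]
        rw [Finset.sum_congr rfl (fun v _ => h2 v), ← Finset.mul_sum]
        show _ ≤ ((K0 T : ℕ) : ℝ) ^ (A none - 1) * ((Fc (fun i : K => A (some i)) : ℕ) : ℝ)
        apply mul_le_mul_of_nonneg_left _ (by positivity)
        exact_mod_cast h1
  obtain ⟨c, hG, hc⟩ := (hCRD (Option K) cap).2.1
  obtain ⟨k₀⟩ := (inferInstance : Nonempty K)
  have h0 := potential (V := Fin (Fc cap)) (K := Option K) (m := T) (F := Φ) hmono htwo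
    (i₀ := none) (j₀ := some k₀) (Option.some_ne_none k₀).symm hG Finset.univ
    (fun _ _ => 1) cap (fun _ _ => le_rfl) hcap hc
  have h1 : Φ (fun _ => 1) = 1 := by
    show ((K0 T : ℕ) : ℝ) ^ (1 - 1) * ((Fc (fun _ : K => 1) : ℕ) : ℝ) = 1
    rw [(hONE K).1]
    simp
  simp only [h1] at h0
  rw [Finset.sum_const, nsmul_eq_mul, mul_one, Finset.card_univ, Fintype.card_fin] at h0
  have h2 : Φ cap = ((K0 T : ℕ) : ℝ) ^ (cap none - 1) *
    ((Fc (fun i : K => cap (some i)) : ℕ) : ℝ) := rfl
  rw [h2] at h0
  exact_mod_cast h0

end Pool.Agent.helper67.GV
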