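import Pool.Agent.helper67.GV.Spec

set_option autoImplicit false

open Finset Filter Topology

namespace Pool.Agent.helper67.GV

open Pool.Agent.helper21.GR

theorem LIM (hRAM : RAM_stmt) (hFMH : FMH_stmt) (hFM0 : FM0_stmt) (hWGT : WGT_stmt)
    (hWMO : WMO_stmt) (hUPF : UPF_stmt) : LIM_stmt := by
  intro T hT
  set F : ℕ → ℝ := fun k => ((Fm (Multiset.replicate k T) : ℕ) : ℝ) with hF
  have hmem : ∀ k : ℕ, ∀ c ∈ Multiset.replicate k T, 1 ≤ c ∧ c ≤ T := by
    intro k c hc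
    have := Multiset.eq_of_mem_replicate hc
    subst this
    exact ⟨by omega, le_rfl⟩
  have hF1 : ∀ k, 1 ≤ F k := by
    intro k
    have := hFM0.2 (Multiset.replicate k T) (fun c hc => (hmem k c hc).1)
    show (1 : ℝ) ≤ ((Fm (Multiset.replicate k T) : ℕ) : ℝ)
    exact_mod_cast this
  set D : ℝ := ((K0 T : ℕ) : ℝ) ^ (T - 1) with hD
  have hK1 : (1 : ℝ) ≤ ((K0 T : ℕ) : ℝ) := by exact_mod_cast (hRAM T hT).2.1
  have hD1 : 1 ≤ D := one_le_pow₀ hK1
  have hFD : ∀ k, F k ≤ D ^ k := by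
    intro k
    induction k with
    | zero =>
      show ((Fm (Multiset.replicate 0 T) : ℕ) : ℝ) ≤ D ^ 0
      rw [Multiset.replicate_zero, hFM0.1]
      simp
    | succ k ih =>
      show ((Fm (Multiset.replicate (k + 1) T) : ℕ) : ℝ) ≤ D ^ (k + 1)
      rw [Multiset.replicate_succ]
      have h1 := (hFMH T (Multiset.replicate k T) T hT (hmem k) (by omega) le_rfl).2
      have h2 : ((Fm (T ::ₘ Multiset.replicate k T) : ℕ) : ℝ) ≤ D * F k := by
        show ((Fm (T ::ₘ Multiset.replicate k T) : ℕ) : ℝ) ≤ ((K0 T : ℕ) : ℝ) ^ (T - 1) *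
          ((Fm (Multiset.replicate k T) : ℕ) : ℝ)
        exact_mod_cast h1
      calc ((Fm (T ::ₘ Multiset.replicate k T) : ℕ) : ℝ) ≤ D * F k := h2
        _ ≤ D * D ^ k := mul_le_mul_of_nonneg_left ih (by linarith)
        _ = D ^ (k + 1) := by ring
  set a : ℕ → ℝ := fun k => Real.log (F k) / (k : ℝ) with ha
  have ha_mem : ∀ k, a k ∈ Set.Icc (0 : ℝ) (Real.log D) := by
    intro k
    have hlogD : 0 ≤ Real.log D := Real.log_nonneg hD1
    rcases Nat.eq_zero_or_pos k with hk | hk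
    · subst hk
      simp only [ha, Nat.cast_zero, div_zero]
      exact ⟨le_rfl, hlogD⟩
    · have hk' : (0 : ℝ) < k := by exact_mod_cast hk
      constructor
      · exact div_nonneg (Real.log_nonneg (hF1 k)) hk'.le
      · show Real.log (F k) / (k : ℝ) ≤ Real.log D
        rw [div_le_iff₀ hk', mul_comm, ← Real.log_pow]
        exact Real.log_le_log (by have := hF1 k; linarith) (hFD k)
  have key : ∀ (u : ℕ → ℕ) (lam : ℝ), Tendsto u atTop atTop →
      Tendsto (fun i => a (u i)) atTop (𝓝 lam) →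
      ∃ g : ℕ → ℝ, IsWeight T g ∧ (∀ k, 1 ≤ k → a k ≤ Real.log (g T)) ∧ Real.log (g T) ≤ lam ∧
        1 ≤ g T := by
    intro u lam hu hlam
    obtain ⟨g, hg, hgl⟩ := hWGT T hT u lam hu hlam
    have hg1 : 1 ≤ g T := (hWMO T g (by omega) hg).2 T (by omega) le_rfl
    refine ⟨g, hg, ?_, ?_, hg1⟩
    · intro k hk
      have hk' : (0 : ℝ) < k := by exact_mod_cast hk
      show Real.log (F k) / (k : ℝ) ≤ Real.log (g T)
      rw [div_le_iff₀ hk', mul_comm, ← Real.log_pow]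
      exact Real.log_le_log (by have := hF1 k; linarith) (hUPF T g hT hg k hk)
    · have := Real.log_le_log (by linarith) hgl
      rwa [Real.log_exp] at this
  obtain ⟨lam₀, -, φ₀, hφ₀, hlim₀⟩ := isCompact_Icc.tendsto_subseq ha_mem
  have hlim₀' : Tendsto (fun i => a (φ₀ i)) atTop (𝓝 lam₀) := hlim₀
  obtain ⟨g₀, hg₀, hk₀, hl₀, hg₀1⟩ := key φ₀ lam₀ hφ₀.tendsto_atTop hlim₀'
  have ev : ∀ u : ℕ → ℕ, Tendsto u atTop atTop → ∀ᶠ i in atTop, 1 ≤ u i := fun u hu =>
    hu.eventually_ge_atTop 1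
  have hl₀' : Real.log (g₀ T) = lam₀ := by
    apply le_antisymm hl₀
    exact le_of_tendsto hlim₀' ((ev _ hφ₀.tendsto_atTop).mono (fun i hi => hk₀ _ hi))
  have hmain : Tendsto a atTop (𝓝 lam₀) := by
    apply tendsto_of_subseq_tendsto
    intro ns hns
    obtain ⟨lam, -, ms, hms, hlim⟩ := isCompact_Icc.tendsto_subseq (fun i => ha_mem (ns i))
    have hu : Tendsto (fun i => ns (ms i)) atTop atTop := hns.comp hms.tendsto_atTop
    have hlim' : Tendsto (fun i => a (ns (ms i))) atTop (𝓝 lam) := hlim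
    obtain ⟨g, hg, hk, hl, hg1⟩ := key (fun i => ns (ms i)) lam hu hlim'
    have h1 : lam ≤ lam₀ := by
      refine le_of_tendsto hlim' ((ev _ hu).mono (fun i hi => ?_))
      rw [← hl₀']
      exact hk₀ _ hi
    have h2 : lam₀ ≤ lam := by
      refine le_of_tendsto hlim₀' ((ev _ hφ₀.tendsto_atTop).mono (fun i hi => ?_))
      exact (hk _ hi).trans hl
    refine ⟨ms, ?_⟩
    rw [le_antisymm h2 h1]
    exact hlim'
  refine ⟨g₀, hg₀, ?_⟩
  have h3 : Tendsto (fun k => Real.exp (a k)) atTop (𝓝 (Real.exp lam₀)) :=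
    (Real.continuous_exp.tendsto lam₀).comp hmain
  rw [← hl₀', Real.exp_log (by linarith)] at h3
  refine h3.congr (fun k => ?_)
  have hpos : (0 : ℝ) < ((Fm (Multiset.replicate k T) : ℕ) : ℝ) := by
    have := hF1 k
    linarith
  rw [Real.rpow_def_of_pos hpos]
  show Real.exp (Real.log (F k) / (k : ℝ)) = _
  congr 1
  ring

end Pool.Agent.helper67.GV
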