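import Pool.Agent.helper67.GV.Spec

set_option autoImplicit false

open Finset Filter Topology

namespace Pool.Agent.helper67.GV

open Pool.Agent.helper21.GR

theorem ONE (hCRD : CRD_stmt) : ONE_stmt := by
  classical
  intro K _ hK
  obtain ⟨k₀⟩ := hK
  have hone : ∀ cap : K → ℕ, (∀ i, 1 ≤ cap i) → 1 ≤ Fc cap := by
    intro cap hcap
    have h := (hCRD K cap).1 (Fin 1) (fun _ _ => k₀) (Finset.univ : Finset (Fin 1))
      ⟨fun _ _ => rfl, fun _ _ _ _ _ _ => Or.inl rfl⟩ (by
        intro l Q _ _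
        have h1 : Q.card ≤ 1 := by
          have := Finset.card_le_univ Q
          simpa using this
        rw [Finset.sum_const, smul_eq_mul, mul_one]
        exact h1.trans (hcap l))
    simpa using h
  refine ⟨le_antisymm ?_ (hone _ (fun _ => le_rfl)), hone⟩
  by_contra hcon
  have h2 : Rz (fun _ : K => 1) 2 := ((hCRD K (fun _ : K => 1)).2.2.1 2).2 (by omega)
  obtain ⟨c, hG, hc⟩ := h2
  have h3 := hc (c 0 1) Finset.univ (Finset.Subset.refl _) (by
    intro u _ v _ huv
    have key : ∀ u v : Fin 2, u ≠ v → (u = 0 ∧ v = 1) ∨ (u = 1 ∧ v = 0) := by decide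
    rcases key u v huv with ⟨h1, h2⟩ | ⟨h1, h2⟩
    · rw [h1, h2]
    · rw [h1, h2]
      exact hG.symm _ _)
  simp at h3

end Pool.Agent.helper67.GV
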