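import Pool.Agent.helper67.GV.Spec

set_option autoImplicit false

open Finset Filter Topology

namespace Pool.Agent.helper67.GV

open Pool.Agent.helper21.GR

theorem RAM : RAM_stmt := by
  classical
  intro T hT
  have h1 : 1 ≤ K0 T := by
    have := one_le_rho (t := T + 1) (by omega)
    unfold K0
    exact_mod_cast this
  refine ⟨?_, h1, ?_⟩
  · intro V _ r hr S hS1 hS2
    have h2 : S.card ∉ RSet (T + 1) := by
      apply not_mem_RSet hr (by omega)
      · rw [Nat.add_sub_cancel]; exact hS1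
      · rw [Nat.add_sub_cancel]; exact hS2
    have h3 := lt_sInf (by omega) h2
    unfold K0
    omega
  · have h2 : K0 T ∉ RSet (T + 1) := by
      apply Nat.notMem_of_lt_sInf
      unfold K0 at h1 ⊢
      omega
    have h2' : ¬ ∀ f : Fin (K0 T) → Fin (K0 T) → Fin 2, (∀ a b : Fin (K0 T), f a b = f b a) →
        ∃ S : Finset (Fin (K0 T)), S.card = T + 1 ∧ ∃ i : Fin 2,
          ∀ x ∈ S, ∀ y ∈ S, x ≠ y → f x y = i := h2
    push Not at h2'
    obtain ⟨f, hf, hno⟩ := h2'
    have hno' : ¬ ∃ S : Finset (Fin (K0 T)), S.card = T + 1 ∧ ∃ i : Fin 2,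
        ∀ x ∈ S, ∀ y ∈ S, x ≠ y → f x y = i := by
      rintro ⟨S, hS, i, hi⟩
      obtain ⟨x, hx, y, hy, hxy, hne⟩ := hno S hS i
      exact hne (hi x hx y hy hxy)
    have c0 := clique_small (by omega) hno' 0 Finset.univ
    have c1 := clique_small (by omega) hno' 1 Finset.univ
    rw [Nat.add_sub_cancel] at c0 c1
    refine ⟨fun u v => f u v = 0, fun u v h => by
      show f v u = 0
      rw [hf]
      exact h, c0, ?_⟩
    intro Q hQ hc
    apply c1 Q hQ
    intro u hu v hv huv
    have h0 := hc u hu v hv huv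
    have : ∀ z : Fin 2, z ≠ 0 → z = 1 := by decide
    exact this _ h0

end Pool.Agent.helper67.GV
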