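import Pool.Agent.helper67.GV.Spec

set_option autoImplicit false

open Finset Filter Topology

namespace Pool.Agent.helper67.GV

open Pool.Agent.helper21.GR

theorem TWO (hSHF : SHF_stmt) : TWO_stmt := by
  intro T n H C a b hn hH
  have h1 := hSHF T n (fun x => H (x + Pi.single b 1) - H x) C a hn (fun x => by
    rw [abs_le]
    have h := hH x b
    exact ⟨by linarith [h.1, h.2], h.2⟩)
  refine le_trans (le_of_eq ?_) h1
  congr 1
  have h2 : mean n (fun x => H (x + Pi.single a 1 + Pi.single b 1) - H x) =
      mean n (fun x => H (x + Pi.single a 1 + Pi.single b 1) - H (x + Pi.single a 1)) +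
        mean n (fun x => H (x + Pi.single a 1) - H x) := by
    unfold mean
    rw [← add_div, ← Finset.sum_add_distrib]
    congr 1
    refine Finset.sum_congr rfl (fun x _ => ?_)
    ring
  rw [h2]
  ring

end Pool.Agent.helper67.GV
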