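import Pool.Agent.helper67.GV.Spec

set_option autoImplicit false

open Finset Filter Topology

namespace Pool.Agent.helper67.GV

open Pool.Agent.helper21.GR

theorem WGT (hHFP : HFP_stmt) (hAVG : AVG_stmt) : WGT_stmt := by
  classical
  intro T hT u lam hu hlam
  obtain ⟨T', rfl⟩ : ∃ T', T = T' + 1 := ⟨T - 1, by omega⟩
  obtain ⟨h0, ⟨C, hC⟩, hz, hrep, hineq⟩ := hHFP T' (by omega)
  obtain ⟨ℓ, hℓ0, hℓT, hℓ⟩ := hAVG T' Hf C u lam h0 hC hz hu (by
    refine hlam.congr (fun i => ?_)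
    rw [hrep])
  set g : ℕ → ℝ := fun a => if h : 1 ≤ a ∧ a ≤ T' + 1 then
    Real.exp (ℓ ⟨a - 1, by omega⟩) else 0 with hg
  have gval : ∀ a : Fin (T' + 1), g ((a : ℕ) + 1) = Real.exp (ℓ a) := by
    intro a
    have h : 1 ≤ (a : ℕ) + 1 ∧ (a : ℕ) + 1 ≤ T' + 1 := ⟨by omega, by have := a.2; omega⟩
    simp only [hg]
    rw [dif_pos h]
    congr 1
  refine ⟨g, ⟨?_, ?_⟩, ?_⟩
  · have := gval 0
    rw [hℓ0, Real.exp_zero] at this
    simpa using this
  · intro n r a b A B hn hr hab hA hB hQa hQb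
    have hav : ∀ v, a v ≤ A := by
      intro v
      have := hQa {v} (by
        intro x hx y hy hxy
        rw [Finset.mem_singleton] at hx hy
        exact absurd (hx.trans hy.symm) hxy)
      simpa using this
    have hbv : ∀ v, b v ≤ B := by
      intro v
      have := hQb {v} (by
        intro x hx y hy hxy
        rw [Finset.mem_singleton] at hx hy
        exact absurd (hx.trans hy.symm) hxy)
      simpa using this
    have hA1 : 1 ≤ A := (hab ⟨0, hn⟩).1.trans (hav ⟨0, hn⟩)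
    have hB1 : 1 ≤ B := (hab ⟨0, hn⟩).2.trans (hbv ⟨0, hn⟩)
    obtain ⟨A', hA'⟩ : ∃ A' : Fin (T' + 1), (A' : ℕ) + 1 = A := ⟨⟨A - 1, by omega⟩, by
      show A - 1 + 1 = A
      omega⟩
    obtain ⟨B', hB'⟩ : ∃ B' : Fin (T' + 1), (B' : ℕ) + 1 = B := ⟨⟨B - 1, by omega⟩, by
      show B - 1 + 1 = B
      omega⟩
    have ha' : ∃ a' : Fin n → Fin (T' + 1), ∀ v, (a' v : ℕ) + 1 = a v :=
      ⟨fun v => ⟨a v - 1, by have := (hab v).1; have := hav v; omega⟩, fun v => by
        show a v - 1 + 1 = a v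
        have := (hab v).1
        omega⟩
    have hb' : ∃ b' : Fin n → Fin (T' + 1), ∀ v, (b' v : ℕ) + 1 = b v :=
      ⟨fun v => ⟨b v - 1, by have := (hab v).2; have := hbv v; omega⟩, fun v => by
        show b v - 1 + 1 = b v
        have := (hab v).2
        omega⟩
    obtain ⟨a', ha'⟩ := ha'
    obtain ⟨b', hb'⟩ := hb'
    have h1 := hℓ n a' b' A' B' hn (hineq n r a' b' A' B' hr (by
      intro Q _ hQ
      have := hQa Q hQ
      rw [hA']
      refine le_trans (le_of_eq ?_) this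
      exact Finset.sum_congr rfl (fun v _ => ha' v)) (by
      intro Q _ hQ
      have := hQb Q hQ
      rw [hB']
      refine le_trans (le_of_eq ?_) this
      exact Finset.sum_congr rfl (fun v _ => hb' v)))
    have h2 : ∀ v, g (a v) * g (b v) = Real.exp (ℓ (a' v) + ℓ (b' v)) := by
      intro v
      rw [← ha' v, ← hb' v, gval, gval, Real.exp_add]
    rw [Finset.sum_congr rfl (fun v _ => h2 v), ← hA', ← hB', gval, gval, ← Real.exp_add]
    exact h1
  · have := gval (Fin.last T')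
    rw [Fin.val_last] at this
    rw [this]
    exact Real.exp_le_exp.2 hℓT

end Pool.Agent.helper67.GV
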