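import Pool.Agent.helper67.GV.DIC
import Pool.Agent.helper67.GV.AVG
import Pool.Agent.helper67.GV.LIM
import Pool.Agent.helper67.GV.WGT
import Pool.Agent.helper67.GV.H1B
import Pool.Agent.helper67.GV.CRD
import Pool.Agent.helper67.GV.ONE
import Pool.Agent.helper67.GV.RAM
import Pool.Agent.helper67.GV.FM2
import Pool.Agent.helper67.GV.FM0
import Pool.Agent.helper67.GV.TWO
import Pool.Agent.helper44.GV.BDD
import Pool.Agent.helper44.GV.JEN
import Pool.Agent.helper44.GV.SB2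
import Pool.Agent.helper14.GV.BXC
import Pool.Agent.helper14.GV.MSA
import Pool.Agent.helper14.GV.SHF
import Pool.Agent.helper14.GV.UPF
import Pool.Agent.helper2.GV.FMH
import Pool.Agent.helper2.GV.GRC
import Pool.Agent.helper89.GV.EVN
import Pool.Agent.helper76.GV.FMI
import Pool.Agent.helper76.GV.HFP
import Pool.Agent.helper48.GV.H1A
import Pool.Agent.helper41.GV.LEX
import Pool.Agent.helper13.GV.LOW
import Pool.Agent.helper75.GV.MLT
import Pool.Agent.helper75.GV.TEL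
import Pool.Agent.helper50.GV.TRN
import Pool.Agent.helper50.GV.WMO
import Pool.Agent.helper31.GV.UPR

/-! Assembly of the rows of project gv (MP_89787e_co). -/

set_option autoImplicit false

open Finset Filter Topology

namespace Pool.Agent.helper67.GV

open Pool.Agent.helper21.GR

theorem Asm_CRD : CRD_stmt := CRD BDD
theorem Asm_ONE : ONE_stmt := ONE Asm_CRD
theorem Asm_LEX : LEX_stmt := LEX Asm_CRD
theorem Asm_SB2 : SB2_stmt := SB2 Asm_LEX
theorem Asm_H1A : H1A_stmt := H1A Asm_CRD Asm_LEX RAM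
theorem Asm_H1B : H1B_stmt := H1B Asm_CRD Asm_ONE Asm_SB2 RAM Asm_H1A
theorem Asm_FM2 : FM2_stmt := FM2 TRN
theorem Asm_FMI : FMI_stmt := FMI Asm_SB2 Asm_FM2
theorem Asm_FMH : FMH_stmt := FMH Asm_CRD Asm_H1B Asm_FM2
theorem Asm_FM0 : FM0_stmt := FM0 Asm_ONE Asm_FM2
theorem Asm_HFP : HFP_stmt := HFP RAM Asm_FMI Asm_FMH Asm_FM0 MSA
theorem Asm_SHF : SHF_stmt := SHF TEL BXC
theorem Asm_MLT : MLT_stmt := MLT TEL BXC
theorem Asm_TWO : TWO_stmt := TWO Asm_SHF
theorem Asm_AVG : AVG_stmt := AVG BXC Asm_MLT Asm_TWO JEN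
theorem Asm_WGT : WGT_stmt := WGT Asm_HFP Asm_AVG
theorem Asm_UPR : UPR_stmt := UPR WMO
theorem Asm_GRC : GRC_stmt := GRC Asm_CRD Asm_FM2
theorem Asm_UPF : UPF_stmt := UPF Asm_UPR Asm_GRC
theorem Asm_LOW : LOW_stmt := LOW RAM Asm_FMI Asm_FMH Asm_FM0
theorem Asm_LIM : LIM_stmt := LIM RAM Asm_FMH Asm_FM0 Asm_WGT WMO Asm_UPF
theorem Asm_EVN : EVN_stmt := EVN Asm_FM0 Asm_UPF Asm_LOW

end Pool.Agent.helper67.GV
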