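import Pool.Agent.helper67.GV.Spec

set_option autoImplicit false

open Finset Filter Topology

namespace Pool.Agent.helper67.GV

open Pool.Agent.helper21.GR

/-- if the growth rate is not `sqrt (K0 T)` then the sizes exceed the conjectured values by an exponential
factor for all large `k` -/
theorem DIC (hRAM : RAM_stmt) (hLOW : LOW_stmt) (T : ℕ) (hT : 2 ≤ T) (G : ℝ)
    (hG : Tendsto (fun k : ℕ => ((Fm (Multiset.replicate k T) : ℕ) : ℝ) ^ ((1 : ℝ) / (k : ℝ)))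
      atTop (𝓝 G)) (hne : G ^ 2 ≠ ((K0 T : ℕ) : ℝ)) :
    ∃ c : ℝ, 1 < c ∧ ∀ᶠ k : ℕ in atTop,
      c ^ k * ((fgp T k : ℕ) : ℝ) ≤ ((Fm (Multiset.replicate k T) : ℕ) : ℝ) := by
  set F : ℕ → ℝ := fun k => ((Fm (Multiset.replicate k T) : ℕ) : ℝ) with hF
  have hF0 : ∀ k, 0 ≤ F k := fun k => Nat.cast_nonneg _
  have hK1 : (1 : ℝ) ≤ ((K0 T : ℕ) : ℝ) := by exact_mod_cast (hRAM T hT).2.1
  set s : ℝ := Real.sqrt ((K0 T : ℕ) : ℝ) with hs
  have hs1 : 1 ≤ s := Real.one_le_sqrt.2 hK1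
  have hs2 : s ^ 2 = ((K0 T : ℕ) : ℝ) := Real.sq_sqrt (by linarith)
  have hlow : ∀ m : ℕ, s ^ (2 * m) ≤ F (2 * m) := by
    intro m
    rw [pow_mul, hs2]
    show ((K0 T : ℕ) : ℝ) ^ m ≤ ((Fm (Multiset.replicate (2 * m) T) : ℕ) : ℝ)
    exact_mod_cast hLOW T m hT
  have hroot : ∀ (k : ℕ) (x : ℝ), 1 ≤ k → 0 ≤ x → x ^ k ≤ F k → x ≤ F k ^ ((1 : ℝ) / (k : ℝ)) := by
    intro k x hk hx h
    have hk' : (k : ℝ) ≠ 0 := by
      have : (0 : ℝ) < k := by exact_mod_cast hk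
      exact this.ne'
    calc x = (x ^ k) ^ ((1 : ℝ) / (k : ℝ)) := by
          rw [← Real.rpow_natCast, ← Real.rpow_mul hx, mul_one_div_cancel hk', Real.rpow_one]
      _ ≤ F k ^ ((1 : ℝ) / (k : ℝ)) := Real.rpow_le_rpow (by positivity) h (by positivity)
  have hunroot : ∀ (k : ℕ) (x : ℝ), 1 ≤ k → 0 ≤ x → x ≤ F k ^ ((1 : ℝ) / (k : ℝ)) → x ^ k ≤ F k := by
    intro k x hk hx h
    have hk' : (k : ℝ) ≠ 0 := by
      have : (0 : ℝ) < k := by exact_mod_cast hk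
      exact this.ne'
    calc x ^ k ≤ (F k ^ ((1 : ℝ) / (k : ℝ))) ^ k := pow_le_pow_left₀ hx h k
      _ = F k := by
          rw [← Real.rpow_natCast, ← Real.rpow_mul (hF0 k), one_div_mul_cancel hk', Real.rpow_one]
  have hsG : s ≤ G := by
    have h1 : Tendsto (fun m : ℕ => F (2 * (m + 1)) ^ ((1 : ℝ) / ((2 * (m + 1) : ℕ) : ℝ))) atTop
        (𝓝 G) := by
      refine hG.comp ?_
      refine tendsto_atTop_mono (fun m => ?_) tendsto_id
      show m ≤ 2 * (m + 1)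
      omega
    refine ge_of_tendsto' h1 (fun m => ?_)
    exact hroot (2 * (m + 1)) s (by omega) (by linarith) (hlow (m + 1))
  have hsG' : s < G := by
    refine lt_of_le_of_ne hsG (fun h => hne ?_)
    rw [← h, hs2]
  obtain ⟨μ₁, h1, h1'⟩ := exists_between hsG'
  obtain ⟨μ₂, h2, h2'⟩ := exists_between h1'
  have hμ₁ : 0 < μ₁ := by linarith
  have hs0 : 0 < s := by linarith
  refine ⟨μ₁ / s, by rw [lt_div_iff₀ hs0, one_mul]; exact h1, ?_⟩
  have hT0 : (1 : ℝ) ≤ T := by exact_mod_cast (by omega : 1 ≤ T)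
  have hfgp : ∀ k : ℕ, ((fgp T k : ℕ) : ℝ) ≤ T * s ^ k := by
    intro k
    unfold fgp
    split_ifs with hk
    · obtain ⟨m, rfl⟩ := hk
      rw [show (m + m) / 2 = m by omega, Nat.cast_pow, ← hs2, ← pow_mul,
        show 2 * m = m + m by ring]
      have : 0 ≤ s ^ (m + m) := by positivity
      nlinarith
    · rw [Nat.not_even_iff_odd] at hk
      obtain ⟨m, rfl⟩ := hk
      rw [show (2 * m + 1 - 1) / 2 = m by omega, Nat.cast_mul, Nat.cast_pow, ← hs2, ← pow_mul]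
      apply mul_le_mul_of_nonneg_left _ (by linarith)
      exact pow_le_pow_right₀ hs1 (by omega)
  have ev1 : ∀ᶠ k : ℕ in atTop, (T : ℝ) ≤ (μ₂ / μ₁) ^ k := by
    have h3 : 1 < μ₂ / μ₁ := by rw [lt_div_iff₀ hμ₁, one_mul]; exact h2
    exact (tendsto_pow_atTop_atTop_of_one_lt h3).eventually_ge_atTop _
  have ev2 : ∀ᶠ k : ℕ in atTop, μ₂ ≤ F k ^ ((1 : ℝ) / (k : ℝ)) :=
    (hG.eventually (eventually_gt_nhds h2')).mono (fun k hk => le_of_lt hk)
  filter_upwards [ev1, ev2, eventually_ge_atTop 1] with k e1 e2 e3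
  have h3 := hunroot k μ₂ e3 (by linarith) e2
  calc (μ₁ / s) ^ k * ((fgp T k : ℕ) : ℝ) ≤ (μ₁ / s) ^ k * (T * s ^ k) :=
        mul_le_mul_of_nonneg_left (hfgp k) (by positivity)
    _ = T * μ₁ ^ k := by
        rw [div_pow]
        field_simp
    _ ≤ (μ₂ / μ₁) ^ k * μ₁ ^ k := mul_le_mul_of_nonneg_right e1 (by positivity)
    _ = μ₂ ^ k := by
        rw [div_pow]
        field_simp
    _ ≤ F k := h3

end Pool.Agent.helper67.GV
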