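import Mathlib
import Pool.Agent.helper21.GR.Pot
import Pool.Agent.helper21.GR.Ramsey
import Pool.Agent.helper21.GR.Main

/-!
# Project gv: the growth rate of Gallai-Ramsey numbers of complete graphs (MP_89787e_co, helper67). Definitions

From `Pool/Agent/helper21/GR` (read `Base.lean`, `Gallai.lean`, `Pot.lean`): `Bd r S x a` (cliques of `r` in `S` have
total `x`-weight at most `a`), `Gal c` (symmetric, no rainbow triangle), `RSet t` (two-colour Ramsey), `TwoIneq`,
`potential`.
-/

set_option autoImplicit false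

open Finset Filter Topology

namespace Pool.Agent.helper67.GV

open Pool.Agent.helper21.GR

/-- there is a Gallai colouring of `n` points with colours in `K` whose cliques of colour `i` have at most `cap i`
points -/
def Rz {K : Type} (cap : K → ℕ) (n : ℕ) : Prop :=
  ∃ c : Fin n → Fin n → K, Gal c ∧
    ∀ i, Bd (fun u v => c u v = i) (univ : Finset (Fin n)) (fun _ => 1) (cap i)

/-- the maximal size of a Gallai colouring with capacities `cap` -/
noncomputable def Fc {K : Type} (cap : K → ℕ) : ℕ := sSup {n | Rz cap n}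

/-- the same for a multiset of capacities (and one more colour with capacity 1) -/
noncomputable def Fm (s : Multiset ℕ) : ℕ := Fc (fun p : (1 ::ₘ s).ToType => (p : ℕ))

/-- the multiset with `x j` elements `j + 1` -/
def ms {T : ℕ} (x : Fin T → ℕ) : Multiset ℕ := ∑ j, x j • ({(j : ℕ) + 1} : Multiset ℕ)

/-- the logarithm of the size -/
noncomputable def Hf {T : ℕ} (x : Fin T → ℕ) : ℝ := Real.log (Fm (ms x))

/-- weight functions: `g 1 = 1` and the weighted two-colour inequality -/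
def IsWeight (T : ℕ) (g : ℕ → ℝ) : Prop :=
  g 1 = 1 ∧ ∀ (n : ℕ) (r : Fin n → Fin n → Prop) (a b : Fin n → ℕ) (A B : ℕ), 0 < n →
    (∀ u v, r u v → r v u) → (∀ v, 1 ≤ a v ∧ 1 ≤ b v) → A ≤ T → B ≤ T →
    (∀ Q : Finset (Fin n), (∀ u ∈ Q, ∀ v ∈ Q, u ≠ v → r u v) → ∑ v ∈ Q, a v ≤ A) →
    (∀ Q : Finset (Fin n), (∀ u ∈ Q, ∀ v ∈ Q, u ≠ v → ¬ r u v) → ∑ v ∈ Q, b v ≤ B) →
    ∑ v, g (a v) * g (b v) ≤ g A * g B

/-- `R(K_(T+1), K_(T+1)) - 1` -/
noncomputable def K0 (T : ℕ) : ℕ := sInf (RSet (T + 1)) - 1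

/-- the box `x j < n j` -/
def box {T : ℕ} (n : Fin T → ℕ) : Finset (Fin T → ℕ) := Fintype.piFinset (fun j => range (n j))

/-- the mean of `f` over the box -/
noncomputable def mean {T : ℕ} (n : Fin T → ℕ) (f : (Fin T → ℕ) → ℝ) : ℝ :=
  (∑ x ∈ box n, f x) / ((box n).card : ℝ)

end Pool.Agent.helper67.GV
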