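import Pool.Agent.helper67.GV.Defs

/-!
# Project gv: specification (helper67, MP_89787e_co)

THEOREM. `T = t - 1`, `R = R_2(K_t)`, `F_k = GR_k(K_t) - 1`. (1) `F_k ≤ g T ^ k` for every weight function `g` (`IsWeight`), and
`F_k ^ (1/k)` tends to the minimum of `g T`, which is attained. (2) `F_(2m) = (R - 1) ^ m` for all `m` if and only if some weight
function has `g T ^ 2 = R - 1`, if and only if the formula of Fox, Grinshpun and Pach holds for infinitely many `k`.

Every `XX_stmt` is one row `gv:XX`; its complete proof is in its docstring. File `Pool/Agent/<seat>/GV/XX.lean`, `import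
Pool.Agent.helper67.GV.Spec`, `namespace Pool.Agent.helper67.GV`, `open Pool.Agent.helper21.GR`, auxiliary lemmas prefixed `XX_`; other
rows only as hypotheses (exact theorem line in the lock note). Library: `Pool/Agent/helper21/GR/Base.lean` (`Bd`, `Bd.mono`, `Bd.le`,
`Bd.single`, `Bd.one`), `Gallai.lean` (`Gal`), `Pot.lean` (`exists_max`, `TwoIneq`, `potential`), `Ramsey.lean` (`RSet`, `lt_sInf`,
`not_mem_RSet`, `clique_small`, `RSet_nonempty`), `Main.lean` (`GSet`, `size_le`, `size_prod`, `main_sq`, `one_le_rho`).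
-/

set_option autoImplicit false

open Finset Filter Topology

namespace Pool.Agent.helper67.GV

open Pool.Agent.helper21.GR

/-! ## A. Gallai colourings with capacities -/

/-- BDD (short-medium). `Rz cap` is bounded. If `K` is empty then `n = 0` (the colouring has a value on the diagonal). Otherwise
take `K ≃ Fin k` (`Fintype.equivFin`, `k ≥ 1`), `t = (∑ i, cap i) + 3`: a colouring with capacities `cap` has no monochromatic clique with
`t` points, so `n ^ 2 ≤ (Cst * _) ^ k` (`main_sq`). -/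
def BDD_stmt : Prop := ∀ (K : Type) [Fintype K] (cap : K → ℕ), ∃ N : ℕ, ∀ n, Rz cap n → n ≤ N

/-- CRD (short). A Gallai colouring on a finset `S` gives a realization: `V := S ≃ Fin S.card` (`Finset.equivFin`), `le_csSup` with BDD.
Second part: the supremum is attained (`Nat.sSup_mem`, `Rz cap 0` holds). Third part: smaller numbers are realizable (`Fin.castLE`).
Fourth part: monotone in the capacities. -/
def CRD_stmt : Prop := ∀ (K : Type) [Fintype K] (cap : K → ℕ),
  (∀ (V : Type) [DecidableEq V] (c : V → V → K) (S : Finset V), Gal c →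
    (∀ l, Bd (fun u v => c u v = l) S (fun _ => 1) (cap l)) → S.card ≤ Fc cap) ∧
  Rz cap (Fc cap) ∧ (∀ n, Rz cap n ↔ n ≤ Fc cap) ∧
  ∀ cap' : K → ℕ, (∀ l, cap l ≤ cap' l) → Fc cap ≤ Fc cap'

/-- ONE (short). For nonempty `K` and `cap = 1` we have `Fc = 1`: one point is realizable (constant colouring, cliques are subsets of
one point); two points give a clique with 2 points (any two different points, colour of their edge). Second part: `1 ≤ Fc cap` if all
`cap i ≥ 1`. Hypothesis: `hCRD`. -/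
def ONE_stmt : Prop := ∀ (K : Type) [Fintype K] [Nonempty K],
  Fc (fun _ : K => 1) = 1 ∧ ∀ cap : K → ℕ, (∀ i, 1 ≤ cap i) → 1 ≤ Fc cap

/-- TRN (short-medium). Palettes with the same multiset of capacities. There is `e : K ≃ K'` with `cap' (e i) = cap i`: all fibres have the same
cardinality (`Multiset.count_map`, `Fintype.card_subtype`), use `Equiv.sigmaFiberEquiv` and `Fintype.equivOfCardEq`. Then
`Rz cap n ↔ Rz cap' n` (compose the colouring with `e` or `e.symm`), so `Fc cap = Fc cap'`. -/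
def TRN_stmt : Prop := ∀ (K K' : Type) [Fintype K] [Fintype K'] (cap : K → ℕ) (cap' : K' → ℕ),
  Multiset.map cap univ.val = Multiset.map cap' univ.val → Fc cap = Fc cap'

/-- LEX (medium). Substitution. Let `m v = Fc (w v)` and `c v : Fin (m v) → Fin (m v) → K` a realization (`CRD`, second part). On the type
`Σ v : V, Fin (m v)` take the finset `S.sigma (fun _ => univ)` (cardinality `∑ v ∈ S, m v`) and the colouring `e (v, p) (v', p') = d v v'` for `v ≠ v'` and
`c v p p'` for `v = v'`. `Gal e`: a triangle inside one part (`Gal (c v)`), with two points `p, q` in one part and the third in another part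
(two equal edges), or in three different parts (`Gal d`). A clique `Q` of colour `l`: its projection `Q'` is an `l`-clique of `d`, and the part of `Q` over
`v` is an `l`-clique of `c v` (image in `Fin (m v)`), so it has at most `w v l` points: `#Q ≤ ∑ v ∈ Q', w v l ≤ cap l`
(`Finset.card_eq_sum_card_fiberwise` or `card_sigma`). Apply `CRD`, first part. Hypothesis: `hCRD`. -/
def LEX_stmt : Prop := ∀ (K : Type) [Fintype K] (V : Type) [DecidableEq V] (d : V → V → K), Gal d →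
  ∀ (S : Finset V) (w : V → K → ℕ) (cap : K → ℕ),
    (∀ l, Bd (fun u v => d u v = l) S (fun v => w v l) (cap l)) → ∑ v ∈ S, Fc (w v) ≤ Fc cap

/-- SB2 (short-medium). The two-coloured case of `LEX`: `d u v = if r u v then i else j` (`Gal d`: symmetric, only two colours). Cliques of colour
`i` are `r`-cliques, of colour `j`: `¬ r`-cliques, cliques of another colour `l` have at most one point `v` and there the weight is `cap l`.
Hypothesis: `hLEX`. -/
def SB2_stmt : Prop := ∀ (K : Type) [Fintype K] [DecidableEq K] (cap : K → ℕ) (V : Type)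
  [DecidableEq V] (i j : K) (r : V → V → Prop), i ≠ j → (∀ u v, r u v → r v u) →
  ∀ (S : Finset V) (x y : V → ℕ), Bd r S x (cap i) → Bd (fun u v => ¬ r u v) S y (cap j) →
    ∑ v ∈ S, Fc (Function.update (Function.update cap i (x v)) j (y v)) ≤ Fc cap

/-! ## B. One more colour costs at most a constant factor -/

/-- RAM (short). `not_mem_RSet` (`t = T + 1`), `lt_sInf`. Second part: `1 ≤ K0 T` (`one_le_rho`, `T + 1 ≥ 3`). Third part: a colouring of `Fin (K0 T)`
without clique with `T + 1` points exists, as `K0 T < sInf (RSet (T + 1))` (`Nat.notMem_of_lt_sInf`); `r u v := f u v = 0`; both classes bounded by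
`clique_small`. -/
def RAM_stmt : Prop := ∀ T : ℕ, 2 ≤ T →
  (∀ (V : Type) [DecidableEq V] (r : V → V → Prop), (∀ u v, r u v → r v u) → ∀ S : Finset V,
    Bd r S (fun _ => 1) T → Bd (fun u v => ¬ r u v) S (fun _ => 1) T → S.card ≤ K0 T) ∧
  1 ≤ K0 T ∧ ∃ r : Fin (K0 T) → Fin (K0 T) → Prop, (∀ u v, r u v → r v u) ∧
    Bd r univ (fun _ => 1) T ∧ Bd (fun u v => ¬ r u v) univ (fun _ => 1) T

/-- H1A (medium). The new colour (relation `r`, weights `x`, bound `A`) together with one old colour `j` (relation `¬ r`, weights `y`). `x v ≤ A`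
(`Bd.single`). Let `S₁ = {v ∈ S | x v = A}`, `S₂ = {v ∈ S | x v < A}`. For `v ∈ S₁` and `u ∈ S`, `u ≠ v`: `¬ r v u` (otherwise the clique `{u, v}` has weight
`x u + A > A`). By `exists_max` for `¬ r`, `y` on `S₂`: `b` and a clique `Q ⊆ S₂` with weight `b`. (a) `∑_(v ∈ S₂) K0^(x v - 1) Fc (update cap j (y v)) ≤ K0^(A-1)
Fc (update cap j b)`: trivial if `S₂ = ∅`; otherwise `A ≥ 2`, each term is `≤ K0^(A-2) Fc (update cap j b)` (`y v ≤ b`, `CRD` part 4, `1 ≤ K0`), and `#S₂ ≤ K0 T`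
by `RAM` (`Bd.one`, `Bd.mono`, `Bd.le`). (b) `∑_(v ∈ S₁) Fc (update cap j (y v)) + Fc (update cap j b) ≤ Fc cap`: `LEX` for the type `Option V`, the constant colouring `j`, the
finset `insertNone S₁`, the weights `update cap j (y v)` for `some v` and `update cap j b` for `none`: an arbitrary subset `P` of `insertNone S₁` has total weight in colour
`j` at most `∑_(v ∈ S₁') y v + b` with `S₁' ⊆ S₁`, and `S₁' ∪ Q` is a clique of `¬ r`, so it is `≤ cap j`; cliques of a colour `l ≠ j` have at most one point, weight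
`cap l`. (c) the sum over `S₁` is `K0^(A-1) ∑ Fc (update cap j (y v))`. Hypotheses: `hCRD hLEX hRAM`. -/
def H1A_stmt : Prop := ∀ (K : Type) [Fintype K] [DecidableEq K] (T : ℕ), 2 ≤ T →
  ∀ (cap : K → ℕ) (j : K) (A : ℕ) (V : Type) [DecidableEq V] (r : V → V → Prop),
    (∀ u v, r u v → r v u) → cap j ≤ T → A ≤ T → ∀ (S : Finset V) (x y : V → ℕ),
    (∀ v, 1 ≤ x v) → (∀ v, 1 ≤ y v) → Bd r S x A → Bd (fun u v => ¬ r u v) S y (cap j) →
    ∑ v ∈ S, K0 T ^ (x v - 1) * Fc (Function.update cap j (y v)) ≤ K0 T ^ (A - 1) * Fc cap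

/-- H1B (medium). `potential` (library, `Pot.lean`) for the palette `Option K`, `V = Fin n`, `n = Fc cap`, the realization `c` (`CRD`), `x v l = 1`, and the potential
`Φ w = K0 T ^ (w none - 1) * Fc (fun i => w (some i))` (a real number), `m = T`. Monotone: `CRD` part 4, `1 ≤ K0 T`. `TwoIneq` for `(i, j)`: both in `K`: `SB2` (the
factor `K0 ^ (w none - 1)` is constant; `update` at `some i` restricted to `K` is `update` at `i`); `(none, some j)`: `H1A`; `(some j, none)`: `H1A` for the relation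
`¬ r` (then `¬ ¬ r` is `r`, `Bd` is the same: `not_not`) and the weights exchanged (`Function.update_comm`). `Φ 1 = 1` (`ONE`). So `n ≤ Φ cap`.
Hypotheses: `hCRD hONE hSB2 hRAM hH1A`. -/
def H1B_stmt : Prop := ∀ (K : Type) [Fintype K] [DecidableEq K] [Nonempty K] (T : ℕ), 2 ≤ T →
  ∀ cap : Option K → ℕ, (∀ i, cap i ≤ T) →
    Fc cap ≤ K0 T ^ (cap none - 1) * Fc (fun i => cap (some i))

/-! ## C. Multisets of capacities -/

/-- FM2 (short). `TRN` and `Multiset.map_univ_coe`. -/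
def FM2_stmt : Prop := ∀ (K : Type) [Fintype K] (cap : K → ℕ) (s : Multiset ℕ),
  Multiset.map cap univ.val = 1 ::ₘ s → Fc cap = Fm s

/-- FMI (short-medium). The palette `Option (Option K)`, `K = (1 ::ₘ s).ToType`, capacities `A` for `none`, `B` for `some none` and `(p : ℕ)` for `some (some p)`; its multiset is
`A ::ₘ B ::ₘ 1 ::ₘ s` (`Multiset.cons_swap`). `SB2` with `i = none`, `j = some none`, `S = univ`, and `FM2` for both sides. Hypotheses: `hSB2 hFM2`. -/
def FMI_stmt : Prop := ∀ (n : ℕ) (r : Fin n → Fin n → Prop) (a b : Fin n → ℕ) (A B : ℕ)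
  (s : Multiset ℕ), (∀ u v, r u v → r v u) → Bd r univ a A → Bd (fun u v => ¬ r u v) univ b B →
  ∑ v, Fm (a v ::ₘ b v ::ₘ s) ≤ Fm (A ::ₘ B ::ₘ s)

/-- FMH (short-medium). The palette `Option K`, `K = (1 ::ₘ s).ToType`, capacity `a` for `none`. First part: compose a realization for `K` with `some`; a clique of colour `none` has at
most one point. Second part: `H1B` (`K` is nonempty: it contains the dummy colour 1) and `FM2`. Hypotheses: `hCRD hH1B hFM2`. -/
def FMH_stmt : Prop := ∀ (T : ℕ) (s : Multiset ℕ) (a : ℕ), 2 ≤ T → (∀ c ∈ s, 1 ≤ c ∧ c ≤ T) →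
  1 ≤ a → a ≤ T → Fm s ≤ Fm (a ::ₘ s) ∧ Fm (a ::ₘ s) ≤ K0 T ^ (a - 1) * Fm s

/-- FM0 (short). `ONE`, `FM2`. Hypotheses: `hONE hFM2`. -/
def FM0_stmt : Prop := Fm 0 = 1 ∧ ∀ s : Multiset ℕ, (∀ c ∈ s, 1 ≤ c) → 1 ≤ Fm s

/-- MSA (short). The multiset of a profile: adding a unit vector; members; zero; multiples of the last unit vector. -/
def MSA_stmt : Prop := (∀ (T : ℕ) (x : Fin T → ℕ) (a : Fin T),
    ms (x + Pi.single a 1) = ((a : ℕ) + 1) ::ₘ ms x) ∧
  (∀ (T : ℕ) (x : Fin T → ℕ), ∀ c ∈ ms x, 1 ≤ c ∧ c ≤ T) ∧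
  (∀ T : ℕ, ms (0 : Fin T → ℕ) = 0) ∧
  ∀ T k : ℕ, ms (Pi.single (Fin.last T) k : Fin (T + 1) → ℕ) = Multiset.replicate k (T + 1)

/-- HFP (short-medium). Properties of `Hf` from `FMI`, `FMH`, `FM0`, `MSA`: `C = log (K0 (T+1) ^ T)` (`K0 ≥ 1` by `RAM`; powers `a - 1 ≤ T`); the logarithm is monotone;
`exp (Hf x) = Fm (ms x)` as `Fm ≥ 1`; `x + e_0`: `FMH` with `a = 1` (`K0 ^ 0 = 1`). Hypotheses: `hRAM hFMI hFMH hFM0 hMSA`. -/
def HFP_stmt : Prop := ∀ T : ℕ, 1 ≤ T → Hf (0 : Fin (T + 1) → ℕ) = 0 ∧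
  (∃ C : ℝ, ∀ (x : Fin (T + 1) → ℕ) (a : Fin (T + 1)),
    0 ≤ Hf (x + Pi.single a 1) - Hf x ∧ Hf (x + Pi.single a 1) - Hf x ≤ C) ∧
  (∀ x : Fin (T + 1) → ℕ, Hf (x + Pi.single 0 1) = Hf x) ∧
  (∀ k : ℕ, Hf (Pi.single (Fin.last T) k : Fin (T + 1) → ℕ)
    = Real.log (Fm (Multiset.replicate k (T + 1)))) ∧
  ∀ (n : ℕ) (r : Fin n → Fin n → Prop) (a b : Fin n → Fin (T + 1)) (A B : Fin (T + 1)),
    (∀ u v, r u v → r v u) → Bd r univ (fun v => (a v : ℕ) + 1) ((A : ℕ) + 1) →
    Bd (fun u v => ¬ r u v) univ (fun v => (b v : ℕ) + 1) ((B : ℕ) + 1) →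
    ∀ x : Fin (T + 1) → ℕ, ∑ v, Real.exp (Hf (x + Pi.single (a v) 1 + Pi.single (b v) 1)) ≤
      Real.exp (Hf (x + Pi.single A 1 + Pi.single B 1))

/-! ## D. Averaging (no graphs) -/

/-- TEL (short-medium). Telescoping. Prove for all `m` the identity for `update n b m` (instead of `n`) and `m` (instead of `n b`) by induction on `m`: `m = 0`: the box is
empty and `Pi.single b 0 = 0`; step: `box (update n b (m + 1))` is the disjoint union of `box (update n b m)` and the image of `box (update n b 1)` under `y ↦ y +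
Pi.single b m` (`y b = 0`; `Fintype.mem_piFinset`). -/
def TEL_stmt : Prop := ∀ (T : ℕ) (n : Fin T → ℕ) (f : (Fin T → ℕ) → ℝ) (b : Fin T),
  ∑ x ∈ box n, (f (x + Pi.single b 1) - f x) =
    ∑ y ∈ box (Function.update n b 1), (f (y + Pi.single b (n b)) - f y)

/-- BXC (short). `Fintype.card_piFinset`, `Finset.prod_update_of_mem` (or `Finset.mul_prod_erase`); second part: all factors positive. -/
def BXC_stmt : Prop := ∀ (T : ℕ) (n : Fin T → ℕ) (b : Fin T),
  (box n).card = n b * (box (Function.update n b 1)).card ∧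
  ((∀ j, 0 < n j) → 0 < (box n).card ∧ 0 < (box (Function.update n b 1)).card)

/-- SHF (short). Shift: by `TEL` the difference of the sums is a sum over `box (update n b 1)` of terms with absolute value at most `2 C`; divide by `#box n = n b * #box (update n b 1)`
(`BXC`). Hypotheses: `hTEL hBXC`. -/
def SHF_stmt : Prop := ∀ (T : ℕ) (n : Fin T → ℕ) (f : (Fin T → ℕ) → ℝ) (C : ℝ) (b : Fin T),
  (∀ j, 0 < n j) → (∀ x, |f x| ≤ C) →
  |mean n (fun x => f (x + Pi.single b 1)) - mean n f| ≤ 2 * C / n b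

/-- MLT (short-medium). By `TEL` and `BXC` the mean is at most `(1 / n b)` times the maximum of `H (y + Pi.single b (n b)) - H y` over `y ∈ box (update n b 1)`. `H y ≥ 0`, and
`H (z + y) ≤ H z + C * ∑ j, y j` (induction on `∑ j, y j`: subtract a unit vector), `y b = 0`, `y j ≤ N`. Hypotheses: `hTEL hBXC`. -/
def MLT_stmt : Prop := ∀ (T : ℕ) (n : Fin T → ℕ) (H : (Fin T → ℕ) → ℝ) (C : ℝ) (b : Fin T)
  (N : ℕ), (∀ j, 0 < n j) → (∀ j, j ≠ b → n j ≤ N) → 0 ≤ C → (∀ x, 0 ≤ H x) →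
  (∀ x a, H (x + Pi.single a 1) ≤ H x + C) →
  mean n (fun x => H (x + Pi.single b 1) - H x) ≤ (H (Pi.single b (n b)) + C * T * N) / n b

/-- TWO (short). `H (x + e_a + e_b) - H x = (H (x + e_a) - H x) + (f (x + e_a))` with `f x = H (x + e_b) - H x`, `|f| ≤ C`; the mean is additive; `SHF` for `f` and the shift
`a`. Hypothesis: `hSHF`. -/
def TWO_stmt : Prop := ∀ (T : ℕ) (n : Fin T → ℕ) (H : (Fin T → ℕ) → ℝ) (C : ℝ) (a b : Fin T),
  (∀ j, 0 < n j) → (∀ x a, 0 ≤ H (x + Pi.single a 1) - H x ∧ H (x + Pi.single a 1) - H x ≤ C) →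
  |mean n (fun x => H (x + Pi.single a 1 + Pi.single b 1) - H x) -
    (mean n (fun x => H (x + Pi.single a 1) - H x) + mean n (fun x => H (x + Pi.single b 1) - H x))|
    ≤ 2 * C / n a

/-- JEN (short). Let `Z = ∑ exp (l v) > 0` and `x v = h v - l v - (h' - log Z)`. `exp (x v) ≥ 1 + x v` (`Real.add_one_le_exp`), multiply by `exp (l v)` and sum:
`Z + ∑ exp (l v) x v ≤ ∑ exp (h v) * Z / exp h' ≤ Z`, so `∑ exp (l v) x v ≤ 0`. -/
def JEN_stmt : Prop := ∀ (n : ℕ) (h l : Fin n → ℝ) (h' : ℝ), 0 < n →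
  ∑ v, Real.exp (h v) ≤ Real.exp h' →
  ∑ v, Real.exp (l v) * (h v - l v) + (∑ v, Real.exp (l v)) * Real.log (∑ v, Real.exp (l v)) ≤
    (∑ v, Real.exp (l v)) * h'

/-- AVG (medium). We may assume `u i ≥ 1` for all `i` (pass to a tail). Boxes `n i j = if j = Fin.last T then u i else Nat.sqrt (u i)` (all positive, `Nat.sqrt (u i) → ∞`,
`Nat.sqrt (u i) / u i → 0`). `m i a = mean (n i) (fun x => H (x + e_a) - H x) ∈ [0, C]`; the product of intervals is compact (`isCompact_univ_pi`,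
`IsCompact.tendsto_subseq`): `m (φ i) a → ℓ a` for all `a`. `ℓ 0 = 0` as `m i 0 = 0`. `ℓ (last) ≤ lam`: `MLT` with `N = Nat.sqrt (u i)` (`H ≥ 0` by induction from `H 0 = 0`), limit.
The inequality: `TWO`: `mean (n (φ i)) (fun x => H (x + e_a + e_b) - H x) → ℓ a + ℓ b`. Apply `JEN` for every `x` with `h v = H (x + e_(a v) + e_(b v)) - H x`, `h' = H (x + e_A + e_B) -
H x`, `l v = ℓ (a v) + ℓ (b v)`; take the mean over the box (linear, monotone; the mean of a constant is the constant) and the limit: with `Z = ∑ exp (l v)`: `∑ exp (l v) (ℓ (a v) + ℓ (b v) - l v) + Z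
log Z ≤ Z (ℓ A + ℓ B)`, the first sum is zero, so `log Z ≤ ℓ A + ℓ B`. Hypotheses: `hBXC hMLT hTWO hJEN`. -/
def AVG_stmt : Prop := ∀ (T : ℕ) (H : (Fin (T + 1) → ℕ) → ℝ) (C : ℝ) (u : ℕ → ℕ) (lam : ℝ),
  H 0 = 0 → (∀ x a, 0 ≤ H (x + Pi.single a 1) - H x ∧ H (x + Pi.single a 1) - H x ≤ C) →
  (∀ x, H (x + Pi.single 0 1) = H x) → Tendsto u atTop atTop →
  Tendsto (fun i => H (Pi.single (Fin.last T) (u i)) / (u i : ℝ)) atTop (𝓝 lam) →
  ∃ ℓ : Fin (T + 1) → ℝ, ℓ 0 = 0 ∧ ℓ (Fin.last T) ≤ lam ∧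
    ∀ (n : ℕ) (a b : Fin n → Fin (T + 1)) (A B : Fin (T + 1)), 0 < n →
      (∀ x : Fin (T + 1) → ℕ, ∑ v, Real.exp (H (x + Pi.single (a v) 1 + Pi.single (b v) 1)) ≤
        Real.exp (H (x + Pi.single A 1 + Pi.single B 1))) →
      ∑ v, Real.exp (ℓ (a v) + ℓ (b v)) ≤ Real.exp (ℓ A + ℓ B)

/-! ## E. Weight functions and Gallai-Ramsey numbers -/

/-- WGT (short-medium). `T = T' + 1`; `AVG` for `Hf` (`HFP`); `g a = exp (ℓ ⟨a - 1, _⟩)` for `1 ≤ a ≤ T` (and 0 otherwise). `IsWeight`: for `n > 0` the weights satisfy `1 ≤ a v ≤ A ≤ T`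
(singletons), so everything is of the form `index + 1`. Hypotheses: `hHFP hAVG`. -/
def WGT_stmt : Prop := ∀ T : ℕ, 2 ≤ T → ∀ (u : ℕ → ℕ) (lam : ℝ), Tendsto u atTop atTop →
  Tendsto (fun i => Real.log (Fm (Multiset.replicate (u i) T)) / (u i : ℝ)) atTop (𝓝 lam) →
  ∃ g : ℕ → ℝ, IsWeight T g ∧ g T ≤ Real.exp lam

/-- WMO (short). Weight functions are monotone and at least 1 on `[1, T]`: one vertex (`n = 1`), `a 0 = a`, `b 0 = 1`, capacities `A = a'`, `B = 1`: `g a * g 1 ≤ g a' * g 1`. -/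
def WMO_stmt : Prop := ∀ (T : ℕ) (g : ℕ → ℝ), 1 ≤ T → IsWeight T g →
  (∀ a a' : ℕ, 1 ≤ a → a ≤ a' → a' ≤ T → g a ≤ g a') ∧ ∀ a : ℕ, 1 ≤ a → a ≤ T → 1 ≤ g a

/-- UPR (medium). As `size_prod` / `twoIneq_prod` (library `Main.lean`) with `w h` replaced by `G a = if a = 0 then 0 else g (min a T)` (monotone, nonnegative: `WMO`). The
two-colour inequality for a finset `S` of `Fin n` follows from `IsWeight` for `Fin S.card` (transport with `S.equivFin`, `S` nonempty; for `S = ∅` nonnegativity; capacities are at most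
`m = T`, and positive because weights are positive). `size_le` with `m = T`, `t = T + 1` gives `n ≤ g T ^ k`. Hypothesis: `hWMO`. -/
def UPR_stmt : Prop := ∀ (T : ℕ) (g : ℕ → ℝ), 2 ≤ T → IsWeight T g → ∀ k n : ℕ, 1 ≤ k →
  ∀ f : Fin n → Fin n → Fin k, (∀ a b, f a b = f b a) →
  (∀ a b c : Fin n, a ≠ b → b ≠ c → a ≠ c → f a b = f b c ∨ f b c = f a c ∨ f a b = f a c) →
  (¬ ∃ S : Finset (Fin n), S.card = T + 1 ∧ ∃ i : Fin k, ∀ x ∈ S, ∀ y ∈ S, x ≠ y → f x y = i) →
  (n : ℝ) ≤ g T ^ k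

/-- GRC (short-medium). `n ∉ GSet k (T + 1)` iff `Rz (fun _ : Fin k => T) n` (`clique_small`; a clique with more than `T` points contains one with `T + 1` points) iff `Rz` for the
palette `Option (Fin k)` with capacities 1 for `none` and `T` for `some i` (→ compose with `some`; ← the colour `none` occurs only on the diagonal: replace it by colour 0, `k ≥ 1`;
a clique of colour `i` for the new colouring: the off-diagonal colours are unchanged). `FM2` (multiset `1 ::ₘ replicate k T`), `CRD` part 3: the complement of `GSet k (T + 1)` is `{n | n ≤ Fm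
(replicate k T)}`. Second part: the colourings. Hypotheses: `hCRD hFM2`. -/
def GRC_stmt : Prop := ∀ T k : ℕ, 2 ≤ T → 1 ≤ k → (GSet k (T + 1)).Nonempty ∧
  sInf (GSet k (T + 1)) = Fm (Multiset.replicate k T) + 1 ∧
  ∃ f : Fin (Fm (Multiset.replicate k T)) → Fin (Fm (Multiset.replicate k T)) → Fin k,
    (∀ a b, f a b = f b a) ∧
    (∀ a b c, a ≠ b → b ≠ c → a ≠ c → f a b = f b c ∨ f b c = f a c ∨ f a b = f a c) ∧
    ¬ ∃ S : Finset (Fin (Fm (Multiset.replicate k T))), S.card = T + 1 ∧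
      ∃ i : Fin k, ∀ x ∈ S, ∀ y ∈ S, x ≠ y → f x y = i

/-- LOW (short). Induction on `m`: `FMI` with `n = K0 T`, the relation of `RAM` part 3, `a = b = 1`, `A = B = T`: `K0 T * Fm (1 ::ₘ 1 ::ₘ s) ≤ Fm (T ::ₘ T ::ₘ s)`, and `Fm s ≤ Fm (1 ::ₘ 1 ::ₘ s)`
(`FMH` twice). Hypotheses: `hRAM hFMI hFMH hFM0`. -/
def LOW_stmt : Prop := ∀ T m : ℕ, 2 ≤ T → K0 T ^ m ≤ Fm (Multiset.replicate (2 * m) T)

/-- UPF (short). `UPR` for the colouring of `GRC`. Hypotheses: `hUPR hGRC`. -/
def UPF_stmt : Prop := ∀ (T : ℕ) (g : ℕ → ℝ), 2 ≤ T → IsWeight T g → ∀ k : ℕ, 1 ≤ k →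
  ((Fm (Multiset.replicate k T) : ℕ) : ℝ) ≤ g T ^ k

/-- LIM (medium). Let `a k = log (Fm (replicate k T)) / k` (`0 ≤ a k ≤ C`, from `FMH` by induction on `k`: `Fm (replicate k T) ≤ (K0 ^ (T-1)) ^ k`; `FM0`). (i) If `u → ∞` and `a (u i) → lam`, then by `WGT`, `UPF`
there is a weight function with `Fm (replicate k T) ≤ (g T) ^ k ≤ exp (lam k)`, so `a k ≤ log (g T) ≤ lam` for all `k ≥ 1`. (ii) By compactness of `[0, C]` there is `u₀` with `a (u₀ i) → lam₀`, and `g₀`; `a k ≤ log (g₀ T) ≤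
lam₀`, so `log (g₀ T) = lam₀`. (iii) `a k → lam₀`: `tendsto_of_subseq_tendsto`: every sequence `→ ∞` has a subsequence along which `a` converges to some `lam`; `lam ≤ lam₀`
as `a k ≤ lam₀` for `k ≥ 1`; `lam₀ ≤ lam` as `a k ≤ lam` for all `k ≥ 1`, along `u₀`. (iv) `Fm ^ (1 / k) = exp (a k)` (`Real.rpow_def_of_pos`). Hypotheses: `hRAM hFMH hFM0 hWGT hWMO hUPF`. -/
def LIM_stmt : Prop := ∀ T : ℕ, 2 ≤ T → ∃ g : ℕ → ℝ, IsWeight T g ∧
  Tendsto (fun k : ℕ => ((Fm (Multiset.replicate k T) : ℕ) : ℝ) ^ ((1 : ℝ) / (k : ℝ))) atTop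
    (𝓝 (g T))

/-- the value in the conjecture of Fox, Grinshpun and Pach, minus 1 -/
noncomputable def fgp (T k : ℕ) : ℕ := if Even k then K0 T ^ (k / 2) else T * K0 T ^ ((k - 1) / 2)

/-- FRQ (short-medium). If `Fm (replicate k T) = fgp T k` for infinitely many `k` then the limit of `Fm ^ (1/k)` is `sqrt (K0 T)`: `fgp T k` lies between `K0 ^ ((k-1)/2)` (real exponent) and
`T * K0 ^ (k/2)` (real exponent), so `fgp ^ (1/k) → sqrt (K0 T)`; frequently equal sequences have the same limit (`tendsto_nhds_unique_of_frequently_eq`).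
Hypothesis: `hRAM`. -/
def FRQ_stmt : Prop := ∀ (T : ℕ) (G : ℝ), 2 ≤ T →
  Tendsto (fun k : ℕ => ((Fm (Multiset.replicate k T) : ℕ) : ℝ) ^ ((1 : ℝ) / (k : ℝ))) atTop (𝓝 G) →
  (∃ᶠ k in atTop, Fm (Multiset.replicate k T) = fgp T k) → G = Real.sqrt (K0 T)

/-- EVN (short). `(g T) ^ 2 = K0 T`: `Fm (replicate (2 m) T) ≤ g T ^ (2 m) = K0 ^ m` (`UPF`) and `≥` (`LOW`); `m = 0`: `FM0`. Hypotheses: `hFM0 hUPF hLOW`. -/
def EVN_stmt : Prop := ∀ (T : ℕ) (g : ℕ → ℝ), 2 ≤ T → IsWeight T g → g T ^ 2 = K0 T →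
  ∀ m : ℕ, Fm (Multiset.replicate (2 * m) T) = K0 T ^ m

end Pool.Agent.helper67.GV
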